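import Mathlib

/-!
# Counting linked sets
-/

set_option autoImplicit false

namespace Pool.Agent.LAY.H81

open Classical

variable {W : Type}

/-- `Z` is nonempty and connected under `near` -/
def Lnk (near : W → W → Prop) (Z : Finset W) : Prop :=
  Z.Nonempty ∧ ∀ a ∈ Z, ∀ b ∈ Z, Relation.ReflTransGen (fun x y => x ∈ Z ∧ y ∈ Z ∧ near x y) a b

/-- a proper nonempty subset of a linked set can be left by one step -/
theorem exists_step (near : W → W → Prop) (Z : Finset W) (hZ : Lnk near Z) (S : Finset W)
    (hS : S ⊆ Z) (hne : S.Nonempty) (hlt : S ≠ Z) : ∃ a ∈ S, ∃ b ∈ Z, b ∉ S ∧ near a b := by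
  obtain ⟨a, ha⟩ := hne
  obtain ⟨c, hc, hcS⟩ : ∃ c ∈ Z, c ∉ S := by
    by_contra h
    push Not at h
    exact hlt (Finset.Subset.antisymm hS h)
  have h := hZ.2 a (hS ha) c hc
  by_contra hcon
  push Not at hcon
  have : ∀ x, Relation.ReflTransGen (fun x y => x ∈ Z ∧ y ∈ Z ∧ near x y) a x → x ∈ S := by
    intro x hx
    induction hx with
    | refl => exact ha
    | tail _ hst ih =>
      by_contra hns
      exact hcon _ ih _ hst.2.1 hns hst.2.2
  exact hcS (this c h)

/-- exhausting walks -/
theorem exists_walk (near : W → W → Prop) (hsymm : ∀ a b, near a b → near b a) (Z : Finset W)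
    (hZ : Lnk near Z) (w : W) (hw : w ∈ Z) :
    ∀ n : ℕ, n + 1 ≤ Z.card → ∃ l : List W, (w :: l).length = 2 * n + 1 ∧
      (w :: l).IsChain near ∧ (w :: l).toFinset ⊆ Z ∧ (w :: l).toFinset.card = n + 1 := by
  intro n
  induction n with
  | zero =>
    intro _
    refine ⟨[], by simp, by simp, by simpa using hw, by simp⟩
  | succ n ih =>
    intro hn
    obtain ⟨l, h1, h2, h3, h4⟩ := ih (by omega)
    obtain ⟨a, ha, b, hb, hbS, hab⟩ := exists_step near Z hZ (w :: l).toFinset h3
      ⟨w, by simp⟩ (by intro h; rw [← h, h4] at hn; omega)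
    have ha' : a ∈ w :: l := by simpa using ha
    obtain ⟨l1, l2, hl⟩ := List.append_of_mem ha'
    -- new list
    have key : ∃ l', w :: l' = l1 ++ a :: b :: a :: l2 := by
      cases l1 with
      | nil =>
        simp only [List.nil_append, List.cons.injEq] at hl ⊢
        exact ⟨b :: a :: l2, hl.1, rfl⟩
      | cons c l1 =>
        simp only [List.cons_append, List.cons.injEq] at hl ⊢
        exact ⟨l1 ++ a :: b :: a :: l2, hl.1, rfl⟩
    obtain ⟨l', hl'⟩ := key
    have hset : (w :: l').toFinset = insert b (w :: l).toFinset := by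
      rw [hl', hl]
      ext x
      simp only [List.mem_toFinset, List.mem_append, List.mem_cons, Finset.mem_insert]
      tauto
    refine ⟨l', ?_, ?_, ?_, ?_⟩
    · rw [hl'] ; rw [hl] at h1
      simp only [List.length_append, List.length_cons] at h1 ⊢
      omega
    · rw [hl']; rw [hl] at h2
      rw [List.isChain_append] at h2 ⊢
      obtain ⟨c1, c2, c3⟩ := h2
      refine ⟨c1, ?_, ?_⟩
      · rw [List.isChain_cons_cons, List.isChain_cons_cons]
        exact ⟨hab, hsymm _ _ hab, c2⟩
      · intro x hx y hy
        exact c3 x hx y (by simpa using hy)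
    · rw [hset]
      intro x hx
      rw [Finset.mem_insert] at hx
      rcases hx with rfl | hx
      · exact hb
      · exact h3 hx
    · rw [hset, Finset.card_insert_of_notMem hbS, h4]

/-- the chains of length `m` starting after `w` -/
noncomputable def chs [Fintype W] (near : W → W → Prop) : ℕ → W → Finset (List W)
  | 0, _ => {[]}
  | m + 1, w => (Finset.univ.filter (fun v => near w v)).biUnion
      (fun v => (chs near m v).image (fun l => v :: l))

theorem chs_card [Fintype W] (near : W → W → Prop) (d : ℕ)
    (hd : ∀ w, (Finset.univ.filter (fun v => near w v)).card ≤ d) :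
    ∀ (m : ℕ) (w : W), (chs near m w).card ≤ d ^ m := by
  intro m
  induction m with
  | zero => intro w; simp [chs]
  | succ m ih =>
    intro w
    unfold chs
    refine Finset.card_biUnion_le.trans ?_
    calc ∑ v ∈ Finset.univ.filter (fun v => near w v), ((chs near m v).image (fun l => v :: l)).card
        ≤ ∑ v ∈ Finset.univ.filter (fun v => near w v), d ^ m :=
          Finset.sum_le_sum fun v _ => Finset.card_image_le.trans (ih v)
      _ = (Finset.univ.filter (fun v => near w v)).card * d ^ m := by
          rw [Finset.sum_const, smul_eq_mul]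
      _ ≤ d * d ^ m := Nat.mul_le_mul_right _ (hd w)
      _ = d ^ (m + 1) := by ring

theorem mem_chs [Fintype W] (near : W → W → Prop) :
    ∀ (m : ℕ) (w : W) (l : List W), l.length = m → (w :: l).IsChain near → l ∈ chs near m w := by
  intro m
  induction m with
  | zero =>
    intro w l hl _
    rw [List.length_eq_zero_iff] at hl
    subst hl
    simp [chs]
  | succ m ih =>
    intro w l hl hc
    cases l with
    | nil => simp at hl
    | cons v l =>
      rw [List.isChain_cons_cons] at hc
      unfold chs
      simp only [Finset.mem_biUnion, Finset.mem_filter, Finset.mem_univ, true_and,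
        Finset.mem_image]
      exact ⟨v, hc.1, l, ih v l (by simpa using hl) hc.2, rfl⟩

/-- **CNT** -/
theorem cnt [Fintype W] (near : W → W → Prop) (hsymm : ∀ a b, near a b → near b a) (d : ℕ)
    (hd1 : 1 ≤ d) (hd : ∀ w, (Finset.univ.filter (fun v => near w v)).card ≤ d) (w : W) (s : ℕ) :
    (Finset.univ.filter (fun Z : Finset W => Lnk near Z ∧ w ∈ Z ∧ Z.card = s)).card ≤
      d ^ (2 * s) := by
  rcases Nat.eq_zero_or_pos s with rfl | hs
  · rw [Finset.card_eq_zero.2]
    · simp
    · ext Z
      simp only [Finset.mem_filter, Finset.mem_univ, true_and, Finset.notMem_empty, iff_false]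
      rintro ⟨-, h2, h3⟩
      rw [Finset.card_eq_zero] at h3
      rw [h3] at h2
      simp at h2
  · obtain ⟨n, rfl⟩ : ∃ n, s = n + 1 := ⟨s - 1, by omega⟩
    have hsub : (Finset.univ.filter (fun Z : Finset W => Lnk near Z ∧ w ∈ Z ∧ Z.card = n + 1)) ⊆
        (chs near (2 * n) w).image (fun l => (w :: l).toFinset) := by
      intro Z hZ
      simp only [Finset.mem_filter, Finset.mem_univ, true_and] at hZ
      obtain ⟨h1, h2, h3⟩ := hZ
      obtain ⟨l, k1, k2, k3, k4⟩ := exists_walk near hsymm Z h1 w h2 n h3.ge
      simp only [Finset.mem_image]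
      refine ⟨l, mem_chs near _ _ _ ?_ k2, ?_⟩
      · simpa using k1
      · exact Finset.eq_of_subset_of_card_le k3 (by rw [k4, h3])
    calc _ ≤ ((chs near (2 * n) w).image (fun l => (w :: l).toFinset)).card :=
          Finset.card_le_card hsub
      _ ≤ (chs near (2 * n) w).card := Finset.card_image_le
      _ ≤ d ^ (2 * n) := chs_card near d hd _ _
      _ ≤ d ^ (2 * (n + 1)) := Nat.pow_le_pow_right hd1 (by omega)

end Pool.Agent.LAY.H81
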