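import Pool.Agent.Common_LLL.Basic
import Pool.Agent.Helper81_LAY.Cnt

/-!
# The site local lemma
-/

set_option autoImplicit false

namespace Pool.Agent.LAY.H81

open Classical

theorem sum_bU {V ι : Type} [DecidableEq V] [DecidableEq ι] (s : Finset V) (t : V → Finset ι)
    (x : ι → ℝ) (hx : ∀ i, 0 ≤ x i) :
    ∑ i ∈ s.biUnion t, x i ≤ ∑ v ∈ s, ∑ i ∈ t v, x i := by
  induction s using Finset.induction_on with
  | empty => simp
  | insert a s ha ih =>
    rw [Finset.biUnion_insert, Finset.sum_insert ha]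
    have h := Finset.sum_union_inter (s₁ := t a) (s₂ := s.biUnion t) (f := x)
    have h2 : 0 ≤ ∑ i ∈ t a ∩ s.biUnion t, x i := Finset.sum_nonneg fun i _ => hx i
    linarith

/-- local lemma with a summation condition -/
theorem lll_sum {V A ι : Type} [Fintype V] [DecidableEq V] [Fintype A] [DecidableEq A] [Nonempty A]
    [Fintype ι] [DecidableEq ι]
    (E : ι → Finset (V → A)) (Wv : ι → Finset V)
    (hE : ∀ i, ∀ ω ω' : V → A, (∀ v ∈ Wv i, ω v = ω' v) → ω ∈ E i → ω' ∈ E i)
    (x : ι → ℝ) (σ : ℝ) (hx0 : ∀ i, 0 ≤ x i) (hx1 : ∀ i, x i ≤ 1 / 2)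
    (hσ : ∀ v, ∑ i ∈ Finset.univ.filter (fun i => v ∈ Wv i), x i ≤ σ)
    (hP : ∀ i, ((E i).card : ℝ) ≤
      x i * Real.exp (-(2 * σ * (Wv i).card)) * Fintype.card (V → A)) :
    ∃ ω : V → A, ∀ i, ω ∉ E i := by
  refine Pool.Agent.Common_LLL.lll_finite E Wv hE x hx0 (fun i => by linarith [hx1 i]) fun i => ?_
  have hex : ∀ t : ℝ, 0 ≤ t → t ≤ 1 / 2 → Real.exp (-(2 * t)) ≤ 1 - t := by
    intro t ht ht2
    have h1 : 2 * t + 1 ≤ Real.exp (2 * t) := Real.add_one_le_exp _
    rw [Real.exp_neg]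
    have h2 : 0 < 2 * t + 1 := by linarith
    have h3 : (Real.exp (2 * t))⁻¹ ≤ (2 * t + 1)⁻¹ := inv_anti₀ h2 h1
    refine h3.trans ?_
    rw [inv_le_iff_one_le_mul₀ h2]
    nlinarith
  set N := Finset.univ.filter (fun j => j ≠ i ∧ ¬ Disjoint (Wv j) (Wv i)) with hN
  have h1 : Real.exp (-(2 * ∑ j ∈ N, x j)) ≤ ∏ j ∈ N, (1 - x j) := by
    rw [Finset.mul_sum, ← Finset.sum_neg_distrib, Real.exp_sum]
    refine Finset.prod_le_prod (fun j _ => (Real.exp_pos _).le) fun j _ => hex _ (hx0 j) (hx1 j)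
  have h2 : ∑ j ∈ N, x j ≤ σ * (Wv i).card := by
    have h3 : N ⊆ (Wv i).biUnion (fun v => Finset.univ.filter (fun j => v ∈ Wv j)) := by
      intro j hj
      simp only [hN, Finset.mem_filter, Finset.mem_univ, true_and] at hj
      obtain ⟨v, hv1, hv2⟩ := Finset.not_disjoint_iff.1 hj.2
      simp only [Finset.mem_biUnion, Finset.mem_filter, Finset.mem_univ, true_and]
      exact ⟨v, hv2, hv1⟩
    calc ∑ j ∈ N, x j ≤ ∑ j ∈ (Wv i).biUnion (fun v => Finset.univ.filter (fun j => v ∈ Wv j)),
          x j := Finset.sum_le_sum_of_subset_of_nonneg h3 fun j _ _ => hx0 j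
      _ ≤ ∑ v ∈ Wv i, ∑ j ∈ Finset.univ.filter (fun j => v ∈ Wv j), x j := by
          exact sum_bU _ _ _ hx0
      _ ≤ ∑ v ∈ Wv i, σ := Finset.sum_le_sum fun v _ => hσ v
      _ = σ * (Wv i).card := by rw [Finset.sum_const, nsmul_eq_mul, mul_comm]
  refine (hP i).trans ?_
  refine mul_le_mul_of_nonneg_right ?_ (Nat.cast_nonneg _)
  refine mul_le_mul_of_nonneg_left ?_ (hx0 i)
  refine le_trans (Real.exp_le_exp.2 ?_) h1
  linarith

/-- the geometric sum -/
theorem geo (y : ℝ) (hy0 : 0 ≤ y) (hy : y ≤ 1 / 2) (N : ℕ) :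
    ∑ s ∈ Finset.Icc 1 N, y ^ s ≤ 2 * y - 2 * y ^ (N + 1) := by
  induction N with
  | zero => simp
  | succ N ih =>
    rw [Finset.sum_Icc_succ_top (by omega)]
    have h1 : y ^ (N + 1 + 1) ≤ (1 / 2) * y ^ (N + 1) := by
      rw [pow_succ, mul_comm]
      exact mul_le_mul_of_nonneg_right hy (pow_nonneg hy0 _)
    linarith

/-- the numbers -/
theorem num (k L : ℕ) (hL : 10 ^ 4 ≤ L) (hk : 2 ≤ k) (hkL : k ≤ 2 ^ L) :
    128 * (k : ℝ) ^ 25 ≤ Real.exp ((L : ℝ) ^ 2 / 2) := by
  have h1 : (k : ℝ) ≤ (2 : ℝ) ^ L := by exact_mod_cast hkL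
  have h2 : (2 : ℝ) ≤ Real.exp 1 := by
    have := Real.add_one_le_exp (1 : ℝ)
    linarith
  have h3 : (2 : ℝ) ^ L ≤ Real.exp L := by
    calc (2 : ℝ) ^ L ≤ (Real.exp 1) ^ L := pow_le_pow_left₀ (by norm_num) h2 L
      _ = Real.exp L := by rw [← Real.exp_nat_mul]; simp
  have h4 : (k : ℝ) ^ 25 ≤ Real.exp (25 * L) := by
    calc (k : ℝ) ^ 25 ≤ (Real.exp L) ^ 25 :=
          pow_le_pow_left₀ (by positivity) (h1.trans h3) 25
      _ = Real.exp (25 * L) := by rw [← Real.exp_nat_mul]; norm_num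
  have h5 : (128 : ℝ) ≤ Real.exp 7 := by
    calc (128 : ℝ) = 2 ^ 7 := by norm_num
      _ ≤ (Real.exp 1) ^ 7 := pow_le_pow_left₀ (by norm_num) h2 7
      _ = Real.exp 7 := by rw [← Real.exp_nat_mul]; norm_num
  have hLr : (10 : ℝ) ^ 4 ≤ L := by exact_mod_cast hL
  calc 128 * (k : ℝ) ^ 25 ≤ Real.exp 7 * Real.exp (25 * L) :=
        mul_le_mul h5 h4 (by positivity) (Real.exp_pos _).le
    _ = Real.exp (7 + 25 * L) := by rw [Real.exp_add]
    _ ≤ Real.exp ((L : ℝ) ^ 2 / 2) := by
        apply Real.exp_le_exp.2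
        nlinarith

/-- **SLL** -/
theorem sll {W U A J : Type} [Fintype W] [Fintype U] [Fintype A] [Nonempty A] [Fintype J]
    (k L : ℕ) (hL : 10 ^ 4 ≤ L) (hk : 2 ≤ k) (hkL : k ≤ 2 ^ L)
    (near : W → W → Prop) (hsymm : ∀ a b, near a b → near b a)
    (hd : ∀ w, (Finset.univ.filter (fun v => near w v)).card ≤ k ^ 4)
    (loc : U → Finset W) (hloc : ∀ u, (loc u).card ≤ 4)
    (hloc' : ∀ w, (Finset.univ.filter (fun u => w ∈ loc u)).card ≤ k ^ 5)
    (hJ : Fintype.card J ≤ k ^ 4)
    (Bad : J → Finset W → Finset W → Finset (U → A))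
    (hdep : ∀ j Q D, ∀ ω ω' : U → A,
      (∀ u, (∃ w ∈ loc u, ∃ z ∈ Q ∪ D, near z w) → ω u = ω' u) → ω ∈ Bad j Q D → ω' ∈ Bad j Q D)
    (hbad : ∀ j Q D, (Bad j Q D).Nonempty → Lnk near (Q ∪ D) ∧
      ((Bad j Q D).card : ℝ) ≤
        Real.exp (-((L : ℝ) ^ 2 * (Q ∪ D).card)) * Fintype.card (U → A)) :
    ∃ ω : U → A, ∀ j Q D, ω ∉ Bad j Q D := by
  set x : J × Finset W × Finset W → ℝ := fun i =>
    if Lnk near (i.2.1 ∪ i.2.2) then Real.exp (-((L : ℝ) ^ 2 * (i.2.1 ∪ i.2.2).card / 2)) else 0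
    with hx
  set Wv : J × Finset W × Finset W → Finset U := fun i =>
    Finset.univ.filter (fun u => ∃ w ∈ loc u, ∃ z ∈ i.2.1 ∪ i.2.2, near z w) with hWv
  have hkr : (2 : ℝ) ≤ k := by exact_mod_cast hk
  have hk0 : (0 : ℝ) < k := by linarith
  have hLr : (10 : ℝ) ^ 4 ≤ L := by exact_mod_cast hL
  have hnum := num k L hL hk hkL
  set y : ℝ := 4 * (k : ℝ) ^ 8 * Real.exp (-((L : ℝ) ^ 2 / 2)) with hy
  have hE : Real.exp (-((L : ℝ) ^ 2 / 2)) ≤ 1 / (128 * (k : ℝ) ^ 25) := by
    rw [Real.exp_neg, ← one_div]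
    exact one_div_le_one_div_of_le (by positivity) hnum
  have hy0 : 0 ≤ y := by positivity
  have hyb : y ≤ 1 / (32 * (k : ℝ) ^ 17) := by
    calc y ≤ 4 * (k : ℝ) ^ 8 * (1 / (128 * (k : ℝ) ^ 25)) :=
          mul_le_mul_of_nonneg_left hE (by positivity)
      _ = 1 / (32 * (k : ℝ) ^ 17) := by field_simp; norm_num
  have hy1 : y ≤ 1 / 2 := by
    refine hyb.trans ?_
    rw [div_le_div_iff₀ (by positivity) (by norm_num)]
    have : (1 : ℝ) ≤ (k : ℝ) ^ 17 := one_le_pow₀ (by linarith)
    linarith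
  have hvar : ∀ i : J × Finset W × Finset W, ((Wv i).card : ℝ) ≤
      (k : ℝ) ^ 9 * (i.2.1 ∪ i.2.2).card := by
    intro i
    have h1 : Wv i ⊆ (i.2.1 ∪ i.2.2).biUnion (fun z =>
        (Finset.univ.filter (fun w => near z w)).biUnion (fun w =>
          Finset.univ.filter (fun u => w ∈ loc u))) := by
      intro u hu
      simp only [hWv, Finset.mem_filter, Finset.mem_univ, true_and] at hu
      obtain ⟨w, hw, z, hz, hzw⟩ := hu
      rw [Finset.mem_biUnion]
      refine ⟨z, hz, ?_⟩
      rw [Finset.mem_biUnion]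
      exact ⟨w, by simpa using hzw, by simpa using hw⟩
    have h2 : (Wv i).card ≤ (i.2.1 ∪ i.2.2).card * (k ^ 4 * k ^ 5) := by
      refine (Finset.card_le_card h1).trans (Finset.card_biUnion_le_card_mul _ _ _ ?_)
      intro z _
      refine (Finset.card_biUnion_le_card_mul _ _ (k ^ 5) fun w _ => hloc' w).trans ?_
      exact Nat.mul_le_mul_right _ (hd z)
    have h3 : ((Wv i).card : ℝ) ≤ (((i.2.1 ∪ i.2.2).card * (k ^ 4 * k ^ 5) : ℕ) : ℝ) := by
      exact_mod_cast h2
    refine h3.trans (le_of_eq ?_)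
    push_cast
    ring
  refine Exists.imp (fun ω hω j Q D => hω (j, Q, D)) (lll_sum (ι := J × Finset W × Finset W)
    (fun i => Bad i.1 i.2.1 i.2.2) Wv
    (by
      intro i ω ω' h hm
      refine hdep _ _ _ ω ω' (fun u hu => h u ?_) hm
      simp only [hWv, Finset.mem_filter, Finset.mem_univ, true_and]
      exact hu)
    x (1 / (4 * (k : ℝ) ^ 9))
    (by
      intro i
      simp only [hx]
      split_ifs
      · exact (Real.exp_pos _).le
      · exact le_rfl)
    (by
      intro i
      simp only [hx]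
      split_ifs with hl
      · have h1 : (1 : ℝ) ≤ (i.2.1 ∪ i.2.2).card := by
          exact_mod_cast hl.1.card_pos
        have h2 : Real.exp (-((L : ℝ) ^ 2 * (i.2.1 ∪ i.2.2).card / 2)) ≤
            Real.exp (-((L : ℝ) ^ 2 / 2)) := by
          apply Real.exp_le_exp.2
          nlinarith
        refine h2.trans (hE.trans ?_)
        rw [div_le_div_iff₀ (by positivity) (by norm_num)]
        have : (1 : ℝ) ≤ (k : ℝ) ^ 25 := one_le_pow₀ (by linarith)
        linarith
      · norm_num)
    ?_ ?_)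
  · intro u
    -- for a site `z`
    have hz : ∀ z : W, ∑ p ∈ Finset.univ.filter
        (fun p : Finset W × Finset W => z ∈ p.1 ∪ p.2),
        (if Lnk near (p.1 ∪ p.2) then Real.exp (-((L : ℝ) ^ 2 * (p.1 ∪ p.2).card / 2)) else 0) ≤
          2 * y := by
      intro z
      set g : Finset W → ℝ := fun Z =>
        if Lnk near Z then Real.exp (-((L : ℝ) ^ 2 * Z.card / 2)) else 0 with hg
      have hg0 : ∀ Z, 0 ≤ g Z := by
        intro Z
        simp only [hg]
        split_ifs
        · exact (Real.exp_pos _).le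
        · exact le_rfl
      have e1 : ∑ p ∈ Finset.univ.filter (fun p : Finset W × Finset W => z ∈ p.1 ∪ p.2),
          g (p.1 ∪ p.2) = ∑ Z : Finset W, ∑ p ∈ (Finset.univ.filter
            (fun p : Finset W × Finset W => z ∈ p.1 ∪ p.2)).filter (fun p => p.1 ∪ p.2 = Z),
              g (p.1 ∪ p.2) :=
        (Finset.sum_fiberwise _ _ _).symm
      have e2 : ∀ Z : Finset W, ∑ p ∈ (Finset.univ.filter
          (fun p : Finset W × Finset W => z ∈ p.1 ∪ p.2)).filter (fun p => p.1 ∪ p.2 = Z),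
            g (p.1 ∪ p.2) ≤ if Lnk near Z ∧ z ∈ Z then
              (4 * Real.exp (-((L : ℝ) ^ 2 / 2))) ^ Z.card else 0 := by
        intro Z
        have e3 : ∑ p ∈ (Finset.univ.filter
          (fun p : Finset W × Finset W => z ∈ p.1 ∪ p.2)).filter (fun p => p.1 ∪ p.2 = Z),
            g (p.1 ∪ p.2) = ∑ p ∈ (Finset.univ.filter
          (fun p : Finset W × Finset W => z ∈ p.1 ∪ p.2)).filter (fun p => p.1 ∪ p.2 = Z), g Z := by
          refine Finset.sum_congr rfl fun p hp => ?_
          rw [(Finset.mem_filter.1 hp).2]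
        rw [e3, Finset.sum_const, nsmul_eq_mul]
        by_cases hc : Lnk near Z ∧ z ∈ Z
        · rw [if_pos hc]
          have hcard : ((Finset.univ.filter
              (fun p : Finset W × Finset W => z ∈ p.1 ∪ p.2)).filter
                (fun p => p.1 ∪ p.2 = Z)).card ≤ 4 ^ Z.card := by
            have hsub : (Finset.univ.filter
              (fun p : Finset W × Finset W => z ∈ p.1 ∪ p.2)).filter
                (fun p => p.1 ∪ p.2 = Z) ⊆ Z.powerset ×ˢ Z.powerset := by
              intro p hp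
              have := (Finset.mem_filter.1 hp).2
              rw [Finset.mem_product, Finset.mem_powerset, Finset.mem_powerset, ← this]
              exact ⟨Finset.subset_union_left, Finset.subset_union_right⟩
            refine (Finset.card_le_card hsub).trans ?_
            rw [Finset.card_product, Finset.card_powerset, ← mul_pow]
            norm_num
          have hcr : (((Finset.univ.filter
              (fun p : Finset W × Finset W => z ∈ p.1 ∪ p.2)).filter
                (fun p => p.1 ∪ p.2 = Z)).card : ℝ) ≤ 4 ^ Z.card := by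
            exact_mod_cast hcard
          have hgZ : g Z = (Real.exp (-((L : ℝ) ^ 2 / 2))) ^ Z.card := by
            simp only [hg]
            rw [if_pos hc.1, ← Real.exp_nat_mul]
            congr 1
            ring
          rw [hgZ, mul_pow]
          exact mul_le_mul_of_nonneg_right hcr (by positivity)
        · rw [if_neg hc]
          by_cases hl : Lnk near Z
          · have hzn : z ∉ Z := fun h => hc ⟨hl, h⟩
            have hemp : (Finset.univ.filter
              (fun p : Finset W × Finset W => z ∈ p.1 ∪ p.2)).filter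
                (fun p => p.1 ∪ p.2 = Z) = ∅ := by
              ext p
              simp only [Finset.mem_filter, Finset.mem_univ, true_and, Finset.notMem_empty,
                iff_false]
              rintro ⟨h1, h2⟩
              rw [h2] at h1
              exact hzn h1
            rw [hemp]
            simp
          · simp only [hg]
            rw [if_neg hl]
            simp
      have e4 : ∑ Z : Finset W, (if Lnk near Z ∧ z ∈ Z then
              (4 * Real.exp (-((L : ℝ) ^ 2 / 2))) ^ Z.card else 0) ≤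
          ∑ s ∈ Finset.Icc 1 (Fintype.card W), y ^ s := by
        rw [← Finset.sum_filter]
        rw [← Finset.sum_fiberwise_of_maps_to (t := Finset.Icc 1 (Fintype.card W))
          (g := fun Z : Finset W => Z.card)]
        · refine Finset.sum_le_sum fun s hs => ?_
          have e5 : ∑ Z ∈ (Finset.univ.filter (fun Z : Finset W => Lnk near Z ∧ z ∈ Z)).filter
              (fun Z => Z.card = s), (4 * Real.exp (-((L : ℝ) ^ 2 / 2))) ^ Z.card =
              ∑ Z ∈ (Finset.univ.filter (fun Z : Finset W => Lnk near Z ∧ z ∈ Z)).filter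
              (fun Z => Z.card = s), (4 * Real.exp (-((L : ℝ) ^ 2 / 2))) ^ s := by
            refine Finset.sum_congr rfl fun Z hZ => ?_
            rw [(Finset.mem_filter.1 hZ).2]
          rw [e5, Finset.sum_const, nsmul_eq_mul]
          have e6 : (Finset.univ.filter (fun Z : Finset W => Lnk near Z ∧ z ∈ Z)).filter
              (fun Z => Z.card = s) =
              Finset.univ.filter (fun Z : Finset W => Lnk near Z ∧ z ∈ Z ∧ Z.card = s) := by
            ext Z
            simp [and_assoc]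
          have e7 := cnt near hsymm (k ^ 4) (Nat.one_le_pow _ _ (by omega)) hd z s
          rw [← e6] at e7
          have e8 : (((Finset.univ.filter (fun Z : Finset W => Lnk near Z ∧ z ∈ Z)).filter
              (fun Z => Z.card = s)).card : ℝ) ≤ ((k : ℝ) ^ 8) ^ s := by
            have : (((Finset.univ.filter (fun Z : Finset W => Lnk near Z ∧ z ∈ Z)).filter
              (fun Z => Z.card = s)).card : ℝ) ≤ (((k ^ 4) ^ (2 * s) : ℕ) : ℝ) := by
              exact_mod_cast e7
            refine this.trans (le_of_eq ?_)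
            push_cast
            rw [← pow_mul, ← pow_mul]
            congr 1
            ring
          calc _ ≤ ((k : ℝ) ^ 8) ^ s * (4 * Real.exp (-((L : ℝ) ^ 2 / 2))) ^ s :=
                mul_le_mul_of_nonneg_right e8 (by positivity)
            _ = y ^ s := by
                rw [← mul_pow, hy]
                congr 1
                ring
        · intro Z hZ
          have := (Finset.mem_filter.1 hZ).2
          rw [Finset.mem_Icc]
          exact ⟨this.1.1.card_pos, Finset.card_le_univ Z⟩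
      calc _ = ∑ p ∈ Finset.univ.filter (fun p : Finset W × Finset W => z ∈ p.1 ∪ p.2),
          g (p.1 ∪ p.2) := rfl
        _ ≤ ∑ s ∈ Finset.Icc 1 (Fintype.card W), y ^ s := by
            rw [e1]
            exact (Finset.sum_le_sum fun Z _ => e2 Z).trans e4
        _ ≤ 2 * y - 2 * y ^ (Fintype.card W + 1) := geo y hy0 hy1 _
        _ ≤ 2 * y := by
            have : 0 ≤ y ^ (Fintype.card W + 1) := pow_nonneg hy0 _
            linarith
    have hx0 : ∀ i, 0 ≤ x i := by
      intro i
      simp only [hx]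
      split_ifs
      · exact (Real.exp_pos _).le
      · exact le_rfl
    have hsub : (Finset.univ.filter (fun i => u ∈ Wv i)) ⊆
        (loc u).biUnion (fun w => (Finset.univ.filter (fun z => near w z)).biUnion (fun z =>
          (Finset.univ : Finset J) ×ˢ (Finset.univ.filter
            (fun p : Finset W × Finset W => z ∈ p.1 ∪ p.2)))) := by
      intro i hi
      simp only [hWv, Finset.mem_filter, Finset.mem_univ, true_and] at hi
      obtain ⟨w, hw, z, hz, hzw⟩ := hi
      rw [Finset.mem_biUnion]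
      refine ⟨w, hw, ?_⟩
      rw [Finset.mem_biUnion]
      refine ⟨z, by simpa using hsymm _ _ hzw, ?_⟩
      rw [Finset.mem_product]
      exact ⟨Finset.mem_univ _, by simpa using hz⟩
    have hprod : ∀ z : W, ∑ i ∈ (Finset.univ : Finset J) ×ˢ (Finset.univ.filter
            (fun p : Finset W × Finset W => z ∈ p.1 ∪ p.2)), x i ≤ (k : ℝ) ^ 4 * (2 * y) := by
      intro z
      rw [Finset.sum_product]
      have h1 : ∀ j ∈ (Finset.univ : Finset J), ∑ p ∈ Finset.univ.filter
            (fun p : Finset W × Finset W => z ∈ p.1 ∪ p.2), x (j, p) ≤ 2 * y := fun j _ => hz z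
      refine (Finset.sum_le_sum h1).trans ?_
      rw [Finset.sum_const, nsmul_eq_mul, Finset.card_univ]
      refine mul_le_mul_of_nonneg_right ?_ (by positivity)
      exact_mod_cast hJ
    calc ∑ i ∈ Finset.univ.filter (fun i => u ∈ Wv i), x i
        ≤ ∑ i ∈ (loc u).biUnion (fun w => (Finset.univ.filter (fun z => near w z)).biUnion
          (fun z => (Finset.univ : Finset J) ×ˢ (Finset.univ.filter
            (fun p : Finset W × Finset W => z ∈ p.1 ∪ p.2)))), x i :=
          Finset.sum_le_sum_of_subset_of_nonneg hsub fun i _ _ => hx0 i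
      _ ≤ ∑ w ∈ loc u, ∑ i ∈ (Finset.univ.filter (fun z => near w z)).biUnion
          (fun z => (Finset.univ : Finset J) ×ˢ (Finset.univ.filter
            (fun p : Finset W × Finset W => z ∈ p.1 ∪ p.2))), x i := sum_bU _ _ _ hx0
      _ ≤ ∑ w ∈ loc u, ∑ z ∈ Finset.univ.filter (fun z => near w z),
          ∑ i ∈ (Finset.univ : Finset J) ×ˢ (Finset.univ.filter
            (fun p : Finset W × Finset W => z ∈ p.1 ∪ p.2)), x i :=
          Finset.sum_le_sum fun w _ => sum_bU _ _ _ hx0
      _ ≤ ∑ w ∈ loc u, ∑ z ∈ Finset.univ.filter (fun z => near w z), (k : ℝ) ^ 4 * (2 * y) :=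
          Finset.sum_le_sum fun w _ => Finset.sum_le_sum fun z _ => hprod z
      _ ≤ ∑ w ∈ loc u, (k : ℝ) ^ 4 * ((k : ℝ) ^ 4 * (2 * y)) := by
          refine Finset.sum_le_sum fun w _ => ?_
          rw [Finset.sum_const, nsmul_eq_mul]
          refine mul_le_mul_of_nonneg_right ?_ (by positivity)
          exact_mod_cast hd w
      _ ≤ 4 * ((k : ℝ) ^ 4 * ((k : ℝ) ^ 4 * (2 * y))) := by
          rw [Finset.sum_const, nsmul_eq_mul]
          refine mul_le_mul_of_nonneg_right ?_ (by positivity)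
          exact_mod_cast hloc u
      _ = 8 * (k : ℝ) ^ 8 * y := by ring
      _ ≤ 8 * (k : ℝ) ^ 8 * (1 / (32 * (k : ℝ) ^ 17)) :=
          mul_le_mul_of_nonneg_left hyb (by positivity)
      _ = 1 / (4 * (k : ℝ) ^ 9) := by field_simp; norm_num
  · intro i
    by_cases hne : (Bad i.1 i.2.1 i.2.2).Nonempty
    · obtain ⟨hl, hc⟩ := hbad _ _ _ hne
      refine hc.trans ?_
      refine mul_le_mul_of_nonneg_right ?_ (Nat.cast_nonneg _)
      simp only [hx]
      rw [if_pos hl, ← Real.exp_add]
      apply Real.exp_le_exp.2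
      have h1 : 2 * (1 / (4 * (k : ℝ) ^ 9)) * ((Wv i).card : ℝ) ≤
          ((i.2.1 ∪ i.2.2).card : ℝ) / 2 := by
        calc 2 * (1 / (4 * (k : ℝ) ^ 9)) * ((Wv i).card : ℝ)
            ≤ 2 * (1 / (4 * (k : ℝ) ^ 9)) * ((k : ℝ) ^ 9 * (i.2.1 ∪ i.2.2).card) :=
              mul_le_mul_of_nonneg_left (hvar i) (by positivity)
          _ = ((i.2.1 ∪ i.2.2).card : ℝ) / 2 := by field_simp; norm_num
      have h2 : (0 : ℝ) ≤ (i.2.1 ∪ i.2.2).card := Nat.cast_nonneg _
      have h3 : (1 : ℝ) ≤ (L : ℝ) ^ 2 := one_le_pow₀ (by linarith)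
      have h4 := mul_nonneg (sub_nonneg.2 h3) h2
      linarith
    · rw [Finset.not_nonempty_iff_eq_empty.1 hne]
      simp only [Finset.card_empty, Nat.cast_zero]
      have : 0 ≤ x i := by
        simp only [hx]
        split_ifs
        · exact (Real.exp_pos _).le
        · exact le_rfl
      positivity

end Pool.Agent.LAY.H81
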